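import Pool.Agent.Q162.TwoB.Tree

/-!
# MP_888150_co: the 2-broadcast domination number of trees

Conjecture of Henning, MacGillivray and Yang: every tree of order `n ≥ 2` satisfies
`γ_{b₂}(T) ≤ (2n + 4) / 3`.  We prove it, and the same bound for every connected graph.
-/

namespace Pool.Agent.Results.MP_888150_co.TwoBroadcastTrees

open SimpleGraph

/-- `f` is a dominating 2-broadcast of `G`: its values are at most the diameter, and every
vertex `u` hears at least two distinct broadcasting vertices. -/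
structure IsDominatingTwoBroadcast {V : Type} (G : SimpleGraph V) (f : V → ℕ) : Prop where
  le_diam : ∀ v, f v ≤ G.diam
  hears_two : ∀ u, ∃ v₁ v₂, v₁ ≠ v₂ ∧ 0 < f v₁ ∧ 0 < f v₂ ∧
    G.dist u v₁ ≤ f v₁ ∧ G.dist u v₂ ≤ f v₂

/-- The 2-broadcast domination number: the least cost of a dominating 2-broadcast. -/
noncomputable def gammaB2 {V : Type} [Fintype V] (G : SimpleGraph V) : ℕ :=
  sInf {k : ℕ | ∃ f : V → ℕ, IsDominatingTwoBroadcast G f ∧ ∑ v, f v = k}

theorem exists_broadcast (V : Type) [Fintype V] (G : SimpleGraph V) (hG : G.Connected)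
    (hn : 2 ≤ Fintype.card V) :
    ∃ f : V → ℕ, IsDominatingTwoBroadcast G f ∧ 3 * ∑ v, f v ≤ 2 * Fintype.card V + 4 := by
  obtain ⟨T, hTG, hT⟩ := hG.exists_isTree_le
  obtain ⟨f, hf1, hf2, hf3⟩ := Pool.Agent.Q162.TwoB.tree_main hT hn
  have hnt : Nontrivial V := Fintype.one_lt_card_iff_nontrivial.1 (by omega)
  have htop : G.ediam ≠ ⊤ := connected_iff_ediam_ne_top.1 hG
  have hpos : 0 < G.diam := Nat.pos_of_ne_zero (diam_ne_zero_of_ediam_ne_top htop)
  refine ⟨fun v => min (f v) G.diam, ⟨fun v => min_le_right _ _, ?_⟩, ?_⟩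
  · intro u
    obtain ⟨v₁, v₂, hne, h1, h2, h3, h4⟩ := hf2 u
    have hd : ∀ v, G.dist u v ≤ T.dist u v := fun v => (hT.1 u v).dist_anti hTG
    refine ⟨v₁, v₂, hne, lt_min h1 hpos, lt_min h2 hpos, ?_, ?_⟩
    · exact le_min ((hd v₁).trans h3) (dist_le_diam htop)
    · exact le_min ((hd v₂).trans h4) (dist_le_diam htop)
  · have : ∑ v, min (f v) G.diam ≤ ∑ v, f v := Finset.sum_le_sum (fun v _ => min_le_left _ _)
    change 3 * ∑ v, min (f v) G.diam ≤ _
    omega

theorem bound (V : Type) [Fintype V] (G : SimpleGraph V) (hG : G.Connected)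
    (hn : 2 ≤ Fintype.card V) :
    (∃ f : V → ℕ, IsDominatingTwoBroadcast G f) ∧
      (gammaB2 G : ℚ) ≤ (2 * (Fintype.card V : ℚ) + 4) / 3 := by
  obtain ⟨f, hf, hcost⟩ := exists_broadcast V G hG hn
  refine ⟨⟨f, hf⟩, ?_⟩
  have h1 : gammaB2 G ≤ ∑ v, f v := Nat.sInf_le ⟨f, hf, rfl⟩
  have h2 : 3 * gammaB2 G ≤ 2 * Fintype.card V + 4 := by omega
  have h3 : (3 : ℚ) * (gammaB2 G : ℚ) ≤ 2 * (Fintype.card V : ℚ) + 4 := by exact_mod_cast h2
  linarith

/-- The conjecture holds for every tree of order at least two; the same bound holds for every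
connected graph of order at least two. -/
theorem result :
    (∀ (V : Type) [Fintype V] (T : SimpleGraph V), T.IsTree → 2 ≤ Fintype.card V →
      (∃ f : V → ℕ, IsDominatingTwoBroadcast T f) ∧
        (gammaB2 T : ℚ) ≤ (2 * (Fintype.card V : ℚ) + 4) / 3) ∧
    (∀ (V : Type) [Fintype V] (G : SimpleGraph V), G.Connected → 2 ≤ Fintype.card V →
      (∃ f : V → ℕ, IsDominatingTwoBroadcast G f) ∧
        (gammaB2 G : ℚ) ≤ (2 * (Fintype.card V : ℚ) + 4) / 3) :=
  ⟨fun V _ T hT hn => bound V T hT.1 hn, fun V _ G hG hn => bound V G hG hn⟩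

end Pool.Agent.Results.MP_888150_co.TwoBroadcastTrees
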